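import Pool.Agent.Run7.h148.AX.Stm4

/-!
# Project AX (helper148), piece OPN: perturbation of the initial value
-/

set_option autoImplicit false

open MeasureTheory Set Filter Topology Pool.Agent.Run7.h148.AX
open scoped ENNReal ContDiff FourierTransform

namespace Run7.h760.AX

/-! ### tame curves -/

theorem tame_of_le {a b c : ℝ → E3 → C3} (hc : Measurable (Function.uncurry c)) (ha : TameV a)
    (hb : TameV b) (h : ∀ t ξ, ‖c t ξ‖ₑ ≤ ‖a t ξ‖ₑ + ‖b t ξ‖ₑ) : TameV c := by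
  refine ⟨hc, hc.enorm, ?_⟩
  intro k T
  obtain ⟨M, hM⟩ := ha.2.2 k T
  obtain ⟨M', hM'⟩ := hb.2.2 k T
  refine ⟨M + M', fun t ht => ⟨?_, ?_⟩⟩
  · have hmb : Measurable fun ξ : E3 => wk k ξ * nm b t ξ := by
      have h1 : Measurable (wk k) := by
        unfold wk
        fun_prop
      have h2 : Measurable (nm b t) := (hb.1.comp measurable_prodMk_left).enorm
      exact h1.mul h2
    calc (∫⁻ ξ, wk k ξ * nm c t ξ) ≤ ∫⁻ ξ, (wk k ξ * nm a t ξ + wk k ξ * nm b t ξ) := by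
          apply lintegral_mono
          intro ξ
          show wk k ξ * nm c t ξ ≤ wk k ξ * nm a t ξ + wk k ξ * nm b t ξ
          rw [← mul_add]
          gcongr
          exact h t ξ
      _ = (∫⁻ ξ, wk k ξ * nm a t ξ) + ∫⁻ ξ, wk k ξ * nm b t ξ := lintegral_add_right _ hmb
      _ ≤ M + M' := add_le_add (hM t ht).1 (hM' t ht).1
      _ = ((M + M' : NNReal) : ℝ≥0∞) := by push_cast; rfl
  · intro ξ
    calc wk k ξ * nm c t ξ ≤ wk k ξ * nm a t ξ + wk k ξ * nm b t ξ := by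
          rw [← mul_add]
          gcongr
          exact h t ξ
      _ ≤ M + M' := add_le_add ((hM t ht).2 ξ) ((hM' t ht).2 ξ)
      _ = ((M + M' : NNReal) : ℝ≥0∞) := by push_cast; rfl

theorem tame_add {a b : ℝ → E3 → C3} (ha : TameV a) (hb : TameV b) :
    TameV fun t ξ => a t ξ + b t ξ :=
  tame_of_le (ha.1.add hb.1) ha hb fun _ _ => enorm_add_le _ _

theorem tame_sub {a b : ℝ → E3 → C3} (ha : TameV a) (hb : TameV b) :
    TameV fun t ξ => a t ξ - b t ξ :=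
  tame_of_le (ha.1.sub hb.1) ha hb fun _ _ => enorm_sub_le

theorem wk_zero (ξ : E3) : wk 0 ξ = 1 := by
  simp [wk]

theorem meas_sec {a : ℝ → E3 → C3} (ha : TameV a) (t : ℝ) : Measurable (a t) :=
  ha.1.comp measurable_prodMk_left

theorem cv_lt {a b : ℝ → E3 → C3} (ha : TameV a) (hb : TameV b) {t : ℝ} (ht : 0 ≤ t) (ξ : E3) :
    cv (fun η => ‖a t η‖ₑ) (fun η => ‖b t η‖ₑ) ξ < ⊤ := by
  obtain ⟨M, hM⟩ := ha.2.2 0 t
  obtain ⟨M', hM'⟩ := hb.2.2 0 t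
  have h1 := (hM t ⟨ht, le_rfl⟩).2
  have h2 := (hM' t ⟨ht, le_rfl⟩).1
  simp only [wk_zero, one_mul] at h1 h2
  unfold cv
  calc (∫⁻ η, ‖a t (ξ - η)‖ₑ * ‖b t η‖ₑ) ≤ ∫⁻ η, (M : ℝ≥0∞) * ‖b t η‖ₑ := by
        apply lintegral_mono
        intro η
        show ‖a t (ξ - η)‖ₑ * ‖b t η‖ₑ ≤ (M : ℝ≥0∞) * ‖b t η‖ₑ
        gcongr
        exact h1 (ξ - η)
    _ = M * ∫⁻ η, ‖b t η‖ₑ := lintegral_const_mul' _ _ ENNReal.coe_ne_top
    _ ≤ M * M' := by
        gcongr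
        exact h2
    _ < ⊤ := ENNReal.mul_lt_top ENNReal.coe_lt_top ENNReal.coe_lt_top

/-! ### symmetries -/

theorem rc_add (θ : ℝ) (v w : C3) : rc θ (v + w) = rc θ v + rc θ w := by
  ext i
  fin_cases i <;> simp [rc] <;> ring

theorem rc_sub (θ : ℝ) (v w : C3) : rc θ (v - w) = rc θ v - rc θ w := by
  ext i
  fin_cases i <;> simp [rc] <;> ring

theorem rc_smul (θ c : ℝ) (v : C3) : rc θ (c • v) = c • rc θ v := by
  ext i
  fin_cases i <;> simp [rc] <;> ring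

theorem dt_add (ξ : E3) (v w : C3) : dt ξ (v + w) = dt ξ v + dt ξ w := by
  simp [dt, mul_add, Finset.sum_add_distrib]

theorem dt_sub (ξ : E3) (v w : C3) : dt ξ (v - w) = dt ξ v - dt ξ w := by
  simp [dt, mul_sub, Finset.sum_sub_distrib]

theorem dt_smul (ξ : E3) (c : ℝ) (v : C3) : dt ξ (c • v) = c * dt ξ v := by
  simp only [dt, Pi.smul_apply, Complex.real_smul, Finset.mul_sum]
  apply Finset.sum_congr rfl
  intro i _
  ring

theorem norm_rt (θ : ℝ) (ξ : E3) : ‖rt θ ξ‖ = ‖ξ‖ := by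
  rw [EuclideanSpace.norm_eq, EuclideanSpace.norm_eq]
  congr 1
  simp only [rt, Fin.sum_univ_three, Real.norm_eq_abs, sq_abs]
  have h := Real.sin_sq_add_cos_sq θ
  simp
  nlinarith [h]

theorem sym_add {a b : E3 → C3} (ha : Sym a) (hb : Sym b) : Sym fun ξ => a ξ + b ξ := by
  refine ⟨?_, ?_, ?_⟩
  · intro ξ k
    simp only [Pi.add_apply, ha.1 ξ k, hb.1 ξ k, map_add]
  · intro θ ξ
    simp only [ha.2.1 θ ξ, hb.2.1 θ ξ, rc_add]
  · intro ξ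
    simp only [dt_add, ha.2.2 ξ, hb.2.2 ξ, add_zero]

theorem sym_sub {a b : E3 → C3} (ha : Sym a) (hb : Sym b) : Sym fun ξ => a ξ - b ξ := by
  refine ⟨?_, ?_, ?_⟩
  · intro ξ k
    simp only [Pi.sub_apply, ha.1 ξ k, hb.1 ξ k, map_sub]
  · intro θ ξ
    simp only [ha.2.1 θ ξ, hb.2.1 θ ξ, rc_sub]
  · intro ξ
    simp only [dt_sub, ha.2.2 ξ, hb.2.2 ξ, sub_zero]

theorem sym_hev {w : E3 → C3} (hw : Sym w) (κ t : ℝ) : Sym (hev κ w t) := by
  refine ⟨?_, ?_, ?_⟩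
  · intro ξ k
    simp only [hev, ht, norm_neg, Pi.smul_apply, Complex.real_smul, hw.1 ξ k, map_mul,
      Complex.conj_ofReal]
  · intro θ ξ
    simp only [hev, ht, norm_rt, hw.2.1 θ ξ, rc_smul]
  · intro ξ
    simp only [hev, dt_smul, hw.2.2 ξ, mul_zero]

/-! ### integrals over the half-line -/

theorem lint_Ioi {F : ℝ → ℝ} (hF : Continuous F) (h0 : ∀ t, 0 ≤ F t) {K : ℝ}
    (hK : ∀ T, 0 ≤ T → (∫ s in (0 : ℝ)..T, F s) ≤ K) :
    (∫⁻ s in Ioi 0, ENNReal.ofReal (F s)) ≤ ENNReal.ofReal K := by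
  have hU : Ioi (0 : ℝ) = ⋃ n : ℕ, Ioc (0 : ℝ) n := by
    ext x
    simp only [mem_Ioi, mem_iUnion, mem_Ioc]
    constructor
    · intro hx
      obtain ⟨n, hn⟩ := exists_nat_ge x
      exact ⟨n, hx, hn⟩
    · rintro ⟨n, h, -⟩
      exact h
  have hd : Directed (fun x1 x2 => x1 ⊆ x2) fun n : ℕ => Ioc (0 : ℝ) n := by
    apply Monotone.directed_le
    intro n m hnm
    apply Ioc_subset_Ioc_right
    exact_mod_cast hnm
  rw [hU, setLIntegral_iUnion_of_directed _ hd]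
  apply iSup_le
  intro n
  have hi : IntegrableOn F (Ioc 0 (n : ℝ)) := by
    have := hF.intervalIntegrable (0 : ℝ) n (μ := volume)
    rwa [intervalIntegrable_iff_integrableOn_Ioc_of_le (Nat.cast_nonneg n)] at this
  rw [← ofReal_integral_eq_lintegral_ofReal hi (ae_of_all _ h0)]
  apply ENNReal.ofReal_le_ofReal
  have := hK n (Nat.cast_nonneg n)
  rwa [intervalIntegral.integral_of_le (Nat.cast_nonneg n)] at this

theorem holder_Ioi {H J : ℝ → ℝ} (hH : Continuous H) (hJ : Continuous J) (hH0 : ∀ t, 0 ≤ H t)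
    (hJ0 : ∀ t, 0 ≤ J t) {K L : ℝ} (hK0 : 0 ≤ K) (hL0 : 0 ≤ L)
    (hK : ∀ T, 0 ≤ T → (∫ s in (0 : ℝ)..T, H s ^ 2) ≤ K)
    (hL : ∀ T, 0 ≤ T → (∫ s in (0 : ℝ)..T, J s ^ 2) ≤ L) :
    (∫⁻ s in Ioi 0, ENNReal.ofReal (H s) * ENNReal.ofReal (J s)) ≤
      ENNReal.ofReal (√K * √L) := by
  have h1 := ENNReal.lintegral_mul_le_Lp_mul_Lq (volume.restrict (Ioi (0 : ℝ)))
    Real.HolderConjugate.two_two (f := fun s => ENNReal.ofReal (H s))
    (g := fun s => ENNReal.ofReal (J s)) hH.measurable.ennreal_ofReal.aemeasurable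
    hJ.measurable.ennreal_ofReal.aemeasurable
  have e1 : ∀ F : ℝ → ℝ, (∀ t, 0 ≤ F t) → ∀ s, ENNReal.ofReal (F s) ^ (2 : ℝ) =
      ENNReal.ofReal (F s ^ 2) := by
    intro F hF s
    rw [ENNReal.ofReal_rpow_of_nonneg (hF s) (by norm_num)]
    norm_num
  simp only [e1 H hH0, e1 J hJ0] at h1
  have h2 := lint_Ioi (F := fun t => H t ^ 2) (hH.pow 2) (fun t => sq_nonneg (H t)) hK
  have h3 := lint_Ioi (F := fun t => J t ^ 2) (hJ.pow 2) (fun t => sq_nonneg (J t)) hL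
  calc (∫⁻ s in Ioi 0, ENNReal.ofReal (H s) * ENNReal.ofReal (J s))
      ≤ (∫⁻ s in Ioi 0, ENNReal.ofReal (H s ^ 2)) ^ (1 / 2 : ℝ) *
        (∫⁻ s in Ioi 0, ENNReal.ofReal (J s ^ 2)) ^ (1 / 2 : ℝ) := h1
    _ ≤ ENNReal.ofReal K ^ (1 / 2 : ℝ) * ENNReal.ofReal L ^ (1 / 2 : ℝ) := by
        gcongr
    _ = ENNReal.ofReal (√K * √L) := by
        rw [ENNReal.ofReal_rpow_of_nonneg hK0 (by norm_num),
          ENNReal.ofReal_rpow_of_nonneg hL0 (by norm_num), ← ENNReal.ofReal_mul (by positivity),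
          Real.sqrt_eq_rpow, Real.sqrt_eq_rpow]

theorem iw_nw (ξ : E3) : iw ξ * nw ξ ≤ 1 := by
  unfold iw nw
  rw [← ENNReal.ofReal_mul (by positivity)]
  apply ENNReal.ofReal_le_one.2
  rcases eq_or_ne ‖ξ‖ 0 with h | h
  · rw [h]
    norm_num
  · rw [inv_mul_cancel₀ h]

/-- the residual of the perturbed curve -/
theorem res_bound (hNLB : S_NLB) (hCVM : S_CVM) {R g h : ℝ → E3 → C3} (hg : TameV g)
    (hh : TameV h) {H J : ℝ → ℝ} (hH0 : ∀ t, 0 ≤ H t) (hJ0 : ∀ t, 0 ≤ J t) {s : ℝ}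
    (hgH : (∫⁻ ξ, nm g s ξ) ≤ ENNReal.ofReal (H s))
    (hhJ : (∫⁻ ξ, nm h s ξ) ≤ ENNReal.ofReal (J s)) :
    (∫⁻ ξ, iw ξ * nm (fun t ξ => R t ξ - nl (g t) (h t) ξ - nl (h t) (g t) ξ -
      nl (h t) (h t) ξ) s ξ) ≤ (∫⁻ ξ, iw ξ * nm R s ξ) +
      (80 * (ENNReal.ofReal (H s) * ENNReal.ofReal (J s)) + 40 * ENNReal.ofReal (J s ^ 2)) := by
  have hgm : Measurable fun η => ‖g s η‖ₑ := (meas_sec hg s).enorm
  have hhm : Measurable fun η => ‖h s η‖ₑ := (meas_sec hh s).enorm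
  obtain ⟨m1, i1⟩ := hCVM.1 _ _ hgm hhm
  obtain ⟨m2, i2⟩ := hCVM.1 _ _ hhm hgm
  obtain ⟨m3, i3⟩ := hCVM.1 _ _ hhm hhm
  have hpt : ∀ ξ, iw ξ * nm (fun t ξ => R t ξ - nl (g t) (h t) ξ - nl (h t) (g t) ξ -
      nl (h t) (h t) ξ) s ξ ≤ iw ξ * nm R s ξ +
      40 * (cv (fun η => ‖g s η‖ₑ) (fun η => ‖h s η‖ₑ) ξ +
        cv (fun η => ‖h s η‖ₑ) (fun η => ‖g s η‖ₑ) ξ +
        cv (fun η => ‖h s η‖ₑ) (fun η => ‖h s η‖ₑ) ξ) := by
    intro ξ
    have b1 := hNLB (g s) (h s) ξ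
    have b2 := hNLB (h s) (g s) ξ
    have b3 := hNLB (h s) (h s) ξ
    have b4 : nm (fun t ξ => R t ξ - nl (g t) (h t) ξ - nl (h t) (g t) ξ -
        nl (h t) (h t) ξ) s ξ ≤ ‖R s ξ‖ₑ + ‖nl (g s) (h s) ξ‖ₑ + ‖nl (h s) (g s) ξ‖ₑ +
        ‖nl (h s) (h s) ξ‖ₑ := by
      show ‖R s ξ - nl (g s) (h s) ξ - nl (h s) (g s) ξ - nl (h s) (h s) ξ‖ₑ ≤ _
      refine enorm_sub_le.trans (add_le_add ?_ le_rfl)
      refine enorm_sub_le.trans (add_le_add ?_ le_rfl)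
      exact enorm_sub_le
    calc iw ξ * nm (fun t ξ => R t ξ - nl (g t) (h t) ξ - nl (h t) (g t) ξ -
        nl (h t) (h t) ξ) s ξ
        ≤ iw ξ * (‖R s ξ‖ₑ + 40 * nw ξ * cv (fun η => ‖g s η‖ₑ) (fun η => ‖h s η‖ₑ) ξ +
          40 * nw ξ * cv (fun η => ‖h s η‖ₑ) (fun η => ‖g s η‖ₑ) ξ +
          40 * nw ξ * cv (fun η => ‖h s η‖ₑ) (fun η => ‖h s η‖ₑ) ξ) := by
          gcongr
          exact b4.trans (add_le_add (add_le_add (add_le_add le_rfl b1) b2) b3)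
      _ = iw ξ * ‖R s ξ‖ₑ + (iw ξ * nw ξ) * (40 *
          (cv (fun η => ‖g s η‖ₑ) (fun η => ‖h s η‖ₑ) ξ +
          cv (fun η => ‖h s η‖ₑ) (fun η => ‖g s η‖ₑ) ξ +
          cv (fun η => ‖h s η‖ₑ) (fun η => ‖h s η‖ₑ) ξ)) := by ring
      _ ≤ iw ξ * ‖R s ξ‖ₑ + 1 * (40 * (cv (fun η => ‖g s η‖ₑ) (fun η => ‖h s η‖ₑ) ξ +
          cv (fun η => ‖h s η‖ₑ) (fun η => ‖g s η‖ₑ) ξ +
          cv (fun η => ‖h s η‖ₑ) (fun η => ‖h s η‖ₑ) ξ)) := by
          gcongr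
          exact iw_nw ξ
      _ = _ := by rw [one_mul]; rfl
  refine (lintegral_mono hpt).trans ?_
  have m123 : Measurable fun ξ => cv (fun η => ‖g s η‖ₑ) (fun η => ‖h s η‖ₑ) ξ +
      cv (fun η => ‖h s η‖ₑ) (fun η => ‖g s η‖ₑ) ξ +
      cv (fun η => ‖h s η‖ₑ) (fun η => ‖h s η‖ₑ) ξ := (m1.add m2).add m3
  have m4 : Measurable fun ξ => 40 * (cv (fun η => ‖g s η‖ₑ) (fun η => ‖h s η‖ₑ) ξ +
      cv (fun η => ‖h s η‖ₑ) (fun η => ‖g s η‖ₑ) ξ +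
      cv (fun η => ‖h s η‖ₑ) (fun η => ‖h s η‖ₑ) ξ) := m123.const_mul 40
  rw [lintegral_add_right _ m4, lintegral_const_mul _ m123, lintegral_add_right _ m3,
    lintegral_add_right _ m2, i1, i2, i3]
  gcongr
  have e1 : ENNReal.ofReal (J s ^ 2) = ENNReal.ofReal (J s) * ENNReal.ofReal (J s) := by
    rw [sq, ENNReal.ofReal_mul (hJ0 s)]
  have hgH' : (∫⁻ ξ, ‖g s ξ‖ₑ) ≤ ENNReal.ofReal (H s) := hgH
  have hhJ' : (∫⁻ ξ, ‖h s ξ‖ₑ) ≤ ENNReal.ofReal (J s) := hhJ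
  calc 40 * ((∫⁻ ξ, ‖g s ξ‖ₑ) * (∫⁻ ξ, ‖h s ξ‖ₑ) + (∫⁻ ξ, ‖h s ξ‖ₑ) * (∫⁻ ξ, ‖g s ξ‖ₑ) +
        (∫⁻ ξ, ‖h s ξ‖ₑ) * (∫⁻ ξ, ‖h s ξ‖ₑ))
      ≤ 40 * (ENNReal.ofReal (H s) * ENNReal.ofReal (J s) +
        ENNReal.ofReal (J s) * ENNReal.ofReal (H s) +
        ENNReal.ofReal (J s) * ENNReal.ofReal (J s)) := by
        gcongr
    _ = 80 * (ENNReal.ofReal (H s) * ENNReal.ofReal (J s)) + 40 * ENNReal.ofReal (J s ^ 2) := by
        rw [e1]
        ring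

/-- **OPN.** -/
theorem t_OPN : S_PTB → S_JCN → S_TMN → S_NLB → S_NLL → S_CVM → S_SY1 → S_OPN := by
  intro hPTB hJCN hTMN hNLB hNLL hCVM hSY1 κ K η δ H R g w hκ hK hη hδ hH hH0 hHK hR hg hRs hgs
    hw hws hwδ hgH hRη hsm heq
  obtain ⟨hh, hhδ, J, hJ, hJ0, hhJ, hJK⟩ := hJCN κ δ w hκ hδ hw hwδ
  set h := hev κ w with hdef
  set g' : ℝ → E3 → C3 := fun t ξ => g t ξ + h t ξ with hg'
  set R' : ℝ → E3 → C3 := fun t ξ => R t ξ - nl (g t) (h t) ξ - nl (h t) (g t) ξ -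
      nl (h t) (h t) ξ with hR'
  set η' := η + 80 * δ * √(K / κ) + 40 * δ ^ 2 / κ with hη'
  set K' := 2 * K + 2 * δ ^ 2 / κ with hK'
  have hη'0 : 0 ≤ η' := by positivity
  have hK'0 : 0 ≤ K' := by positivity
  have tg' : TameV g' := tame_add hg hh
  have tR' : TameV R' := tame_sub (tame_sub (tame_sub hR (hTMN g h hg hh)) (hTMN h g hh hg))
    (hTMN h h hh hh)
  have sh : ∀ t, Sym (h t) := fun t => sym_hev hws κ t
  have snl : ∀ a b : E3 → C3, Sym a → Sym b → Sym (nl a b) := fun a b ha hb =>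
    ⟨hSY1.1 a b ha.1 hb.1, hSY1.2.1 a b ha.2.1 hb.2.1, hSY1.2.2 a b⟩
  have hH'K : ∀ T, 0 ≤ T → (∫ s in (0 : ℝ)..T, (H s + J s) ^ 2) ≤ K' := by
    intro T hT
    have c1 : Continuous fun s => 2 * H s ^ 2 := by fun_prop
    have c2 : Continuous fun s => 2 * J s ^ 2 := by fun_prop
    have c3 : Continuous fun s => (H s + J s) ^ 2 := by fun_prop
    have c4 : Continuous fun s => 2 * H s ^ 2 + 2 * J s ^ 2 := by fun_prop
    have h1 : (∫ s in (0 : ℝ)..T, (H s + J s) ^ 2) ≤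
        ∫ s in (0 : ℝ)..T, (2 * H s ^ 2 + 2 * J s ^ 2) := by
      apply intervalIntegral.integral_mono_on hT (c3.intervalIntegrable _ _)
        (c4.intervalIntegrable _ _)
      intro s _
      nlinarith [sq_nonneg (H s - J s)]
    rw [intervalIntegral.integral_add (c1.intervalIntegrable _ _) (c2.intervalIntegrable _ _),
      intervalIntegral.integral_const_mul, intervalIntegral.integral_const_mul] at h1
    have h2 := hHK T hT
    have h3 := hJK T hT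
    have h4 : K' = 2 * K + 2 * (δ ^ 2 / κ) := by rw [hK']; ring
    rw [h4]
    linarith
  have hg'H : ∀ t, 0 ≤ t → (∫⁻ ξ, nm g' t ξ) ≤ ENNReal.ofReal (H t + J t) := by
    intro t ht
    calc (∫⁻ ξ, nm g' t ξ) ≤ ∫⁻ ξ, (nm g t ξ + nm h t ξ) := by
          apply lintegral_mono
          intro ξ
          exact enorm_add_le _ _
      _ = (∫⁻ ξ, nm g t ξ) + ∫⁻ ξ, nm h t ξ := lintegral_add_right _ (meas_sec hh t).enorm
      _ ≤ ENNReal.ofReal (H t) + ENNReal.ofReal (J t) := add_le_add (hgH t ht) (hhJ t)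
      _ = ENNReal.ofReal (H t + J t) := (ENNReal.ofReal_add (hH0 t) (hJ0 t)).symm
  have hR'η : (∫⁻ s in Ioi 0, ∫⁻ ξ, iw ξ * nm R' s ξ) ≤ ENNReal.ofReal η' := by
    have hmHJ : Measurable fun s => ENNReal.ofReal (H s) * ENNReal.ofReal (J s) :=
      hH.measurable.ennreal_ofReal.mul hJ.measurable.ennreal_ofReal
    have hmJ : Measurable fun s => ENNReal.ofReal (J s ^ 2) :=
      (hJ.pow 2).measurable.ennreal_ofReal
    have hm80 : Measurable fun s => 80 * (ENNReal.ofReal (H s) * ENNReal.ofReal (J s)) :=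
      hmHJ.const_mul 80
    have hm40 : Measurable fun s => 40 * ENNReal.ofReal (J s ^ 2) := hmJ.const_mul 40
    have hm12 : Measurable fun s => 80 * (ENNReal.ofReal (H s) * ENNReal.ofReal (J s)) +
        40 * ENNReal.ofReal (J s ^ 2) := hm80.add hm40
    calc (∫⁻ s in Ioi 0, ∫⁻ ξ, iw ξ * nm R' s ξ)
        ≤ ∫⁻ s in Ioi 0, ((∫⁻ ξ, iw ξ * nm R s ξ) +
          (80 * (ENNReal.ofReal (H s) * ENNReal.ofReal (J s)) +
            40 * ENNReal.ofReal (J s ^ 2))) := by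
          apply setLIntegral_mono' measurableSet_Ioi
          intro s hs
          exact res_bound hNLB hCVM hg hh hH0 hJ0 (hgH s (mem_Ioi.1 hs).le) (hhJ s)
      _ = (∫⁻ s in Ioi 0, ∫⁻ ξ, iw ξ * nm R s ξ) +
          (80 * (∫⁻ s in Ioi 0, ENNReal.ofReal (H s) * ENNReal.ofReal (J s)) +
            40 * ∫⁻ s in Ioi 0, ENNReal.ofReal (J s ^ 2)) := by
          rw [lintegral_add_right _ hm12, lintegral_add_right _ hm40,
            lintegral_const_mul _ hmHJ, lintegral_const_mul _ hmJ]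
      _ ≤ ENNReal.ofReal η + (80 * ENNReal.ofReal (√K * √(δ ^ 2 / κ)) +
          40 * ENNReal.ofReal (δ ^ 2 / κ)) := by
          gcongr
          · exact holder_Ioi hH hJ hH0 hJ0 hK (by positivity) hHK hJK
          · exact lint_Ioi (F := fun t => J t ^ 2) (hJ.pow 2) (fun t => sq_nonneg (J t)) hJK
      _ = ENNReal.ofReal η' := by
          have e80 : (80 : ℝ≥0∞) = ENNReal.ofReal 80 := by norm_num
          have e40 : (40 : ℝ≥0∞) = ENNReal.ofReal 40 := by norm_num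
          rw [e80, e40, ← ENNReal.ofReal_mul (by norm_num), ← ENNReal.ofReal_mul (by norm_num),
            ← ENNReal.ofReal_add (by positivity) (by positivity),
            ← ENNReal.ofReal_add (by positivity) (by positivity)]
          congr 1
          rw [hη', Real.sqrt_div (by positivity), Real.sqrt_sq hδ, Real.sqrt_div hK]
          ring
  have hs0 : ∀ ξ, g' 0 ξ = g 0 ξ + w ξ := by
    intro ξ
    simp [hg', hdef, hev, ht]
  have heq' : ∀ t, 0 ≤ t → ∀ ξ, g' t ξ = ht κ ξ t • g' 0 ξ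
      + ∫ s in Ioc 0 t, ht κ ξ (t - s) • (nl (g' s) (g' s) ξ + R' s ξ) := by
    intro t ht0 ξ
    have h1 : (∫ s in Ioc 0 t, ht κ ξ (t - s) • (nl (g' s) (g' s) ξ + R' s ξ)) =
        ∫ s in Ioc 0 t, ht κ ξ (t - s) • (nl (g s) (g s) ξ + R s ξ) := by
      apply setIntegral_congr_fun measurableSet_Ioc
      intro s hs
      have hs1 : 0 ≤ s := hs.1.le
      have a1 := (hNLL (g s) (h s) (g' s) (g' s) (meas_sec hg s) (meas_sec hh s) (meas_sec tg' s)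
        (meas_sec tg' s) ξ (cv_lt hg tg' hs1 ξ) (cv_lt hh tg' hs1 ξ) (cv_lt hg tg' hs1 ξ)).1
      have a2 := (hNLL (g s) (g s) (g s) (h s) (meas_sec hg s) (meas_sec hg s) (meas_sec hg s)
        (meas_sec hh s) ξ (cv_lt hg hg hs1 ξ) (cv_lt hg hg hs1 ξ) (cv_lt hg hh hs1 ξ)).2.2.1
      have a3 := (hNLL (h s) (h s) (g s) (h s) (meas_sec hh s) (meas_sec hh s) (meas_sec hg s)
        (meas_sec hh s) ξ (cv_lt hh hg hs1 ξ) (cv_lt hh hg hs1 ξ) (cv_lt hh hh hs1 ξ)).2.2.1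
      show ht κ ξ (t - s) • (nl (g' s) (g' s) ξ + R' s ξ) =
        ht κ ξ (t - s) • (nl (g s) (g s) ξ + R s ξ)
      congr 1
      have a4 : nl (g' s) (g' s) ξ = nl (g s) (g s) ξ + nl (g s) (h s) ξ +
          (nl (h s) (g s) ξ + nl (h s) (h s) ξ) := by
        rw [show nl (g' s) (g' s) ξ = nl (fun η => g s η + h s η) (g' s) ξ from rfl, a1,
          show nl (g s) (g' s) ξ = nl (g s) (fun η => g s η + h s η) ξ from rfl, a2,
          show nl (h s) (g' s) ξ = nl (h s) (fun η => g s η + h s η) ξ from rfl, a3]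
      rw [a4, hR']
      simp only
      abel
    rw [h1, hs0]
    have h2 := heq t ht0 ξ
    have h3 : h t ξ = ht κ ξ t • w ξ := by
      rw [hdef]
      simp only [hev, max_eq_left ht0]
    show g t ξ + h t ξ = _
    rw [h2, h3, smul_add]
    abel
  obtain ⟨u, tu, mu, su, u0, ub⟩ := hPTB κ K' η' (fun t => H t + J t) R' g' hκ hK'0 hη'0
    (hH.add hJ) (fun t => add_nonneg (hH0 t) (hJ0 t)) hH'K tR' tg'
    (fun t => sym_sub (sym_sub (sym_sub (hRs t) (snl _ _ (hgs t) (sh t)))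
      (snl _ _ (sh t) (hgs t))) (snl _ _ (sh t) (sh t)))
    (fun t => sym_add (hgs t) (sh t)) hg'H hR'η hsm heq'
  refine ⟨u, tu, mu, su, fun ξ => by rw [u0, hs0], ?_⟩
  intro t ht0
  have hm : Measurable fun ξ : E3 => iw ξ * nm h t ξ := by
    have h1 : Measurable iw := by
      unfold iw
      fun_prop
    have h2 : Measurable (nm h t) := (meas_sec hh t).enorm
    exact h1.mul h2
  calc (∫⁻ ξ, iw ξ * ‖u t ξ - g t ξ‖ₑ) ≤ ∫⁻ ξ, (iw ξ * ‖u t ξ - g' t ξ‖ₑ + iw ξ * nm h t ξ) := by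
        apply lintegral_mono
        intro ξ
        show iw ξ * ‖u t ξ - g t ξ‖ₑ ≤ iw ξ * ‖u t ξ - g' t ξ‖ₑ + iw ξ * nm h t ξ
        rw [← mul_add]
        gcongr
        have e : u t ξ - g t ξ = (u t ξ - g' t ξ) + h t ξ := by
          rw [hg']
          simp only
          abel
        rw [e]
        exact enorm_add_le _ _
    _ = (∫⁻ ξ, iw ξ * ‖u t ξ - g' t ξ‖ₑ) + ∫⁻ ξ, iw ξ * nm h t ξ := lintegral_add_right _ hm
    _ ≤ ENNReal.ofReal (4 * η' * Real.exp (25600 / κ * K')) + ENNReal.ofReal δ :=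
        add_le_add (ub t ht0) (hhδ t)
    _ = ENNReal.ofReal (δ + 4 * η' * Real.exp (25600 / κ * K')) := by
        rw [← ENNReal.ofReal_add (by positivity) hδ, add_comm]

end Run7.h760.AX
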